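import Mathlib

/-!
# The endomorphisms of the cokernel of a 2 × 2 matrix with determinant zero

Let `R` be an Artinian local ring, `A` a `2 × 2` matrix over the maximal ideal with `det A = 0`, and
`C` the cokernel of `A`. Then the length of `End C` is greater than the length of `R`.
-/

namespace Pool.Agent.H938.BT

set_option linter.unusedSectionVars false

open Module

section length

variable {R : Type*} [CommRing R]

/-- The kernel and the cokernel of an endomorphism of a module of finite length have the same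
length. -/
lemma length_ker_eq {M : Type*} [AddCommGroup M] [Module R M] [IsArtinian R M] [IsNoetherian R M]
    (φ : M →ₗ[R] M) :
    Module.length R (LinearMap.ker φ) = Module.length R (M ⧸ LinearMap.range φ) := by
  have h1 := Module.length_eq_add_of_exact (LinearMap.ker φ).subtype φ.rangeRestrict
    (Submodule.subtype_injective _) φ.surjective_rangeRestrict
    (by
      rw [LinearMap.exact_iff, LinearMap.ker_rangeRestrict, Submodule.range_subtype])
  have h2 := Module.length_eq_add_of_exact (LinearMap.range φ).subtype (LinearMap.range φ).mkQ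
    (Submodule.subtype_injective _) (Submodule.mkQ_surjective _)
    (by rw [LinearMap.exact_iff, Submodule.ker_mkQ, Submodule.range_subtype])
  have h3 : Module.length R (LinearMap.range φ) ≠ ⊤ := Module.length_ne_top
  rw [h1, add_comm (Module.length R (LinearMap.range φ))] at h2
  exact (ENat.add_left_injective_of_ne_top h3) h2

/-- Rank and nullity for the length. -/
lemma length_eq_ker_add_range {M N : Type*} [AddCommGroup M] [Module R M] [AddCommGroup N]
    [Module R N] (φ : M →ₗ[R] N) :
    Module.length R M = Module.length R (LinearMap.ker φ) + Module.length R (LinearMap.range φ) :=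
  Module.length_eq_add_of_exact (LinearMap.ker φ).subtype φ.rangeRestrict
    (Submodule.subtype_injective _) φ.surjective_rangeRestrict
    (by
      rw [LinearMap.exact_iff, LinearMap.ker_rangeRestrict, Submodule.range_subtype])

/-- Quotient and submodule. -/
lemma length_eq_sub_add_quot {M : Type*} [AddCommGroup M] [Module R M] (N : Submodule R M) :
    Module.length R M = Module.length R N + Module.length R (M ⧸ N) :=
  Module.length_eq_add_of_exact N.subtype N.mkQ
    (Submodule.subtype_injective _) (Submodule.mkQ_surjective _)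
    (by rw [LinearMap.exact_iff, Submodule.ker_mkQ, Submodule.range_subtype])

lemma length_le_of_le {M : Type*} [AddCommGroup M] [Module R M] {N N' : Submodule R M}
    (h : N ≤ N') : Module.length R N ≤ Module.length R N' :=
  Module.length_le_of_injective (Submodule.inclusion h) (Submodule.inclusion_injective h)

lemma length_lt_of_lt {M : Type*} [AddCommGroup M] [Module R M] [IsArtinian R M]
    [IsNoetherian R M] {N N' : Submodule R M}
    (h : N < N') : Module.length R N + 1 ≤ Module.length R N' := by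
  rw [Module.length_submodule, Module.length_submodule]
  exact Order.add_one_le_of_lt (Submodule.height_strictMono h)

end length

section colon

variable {R : Type*} [CommRing R] [IsLocalRing R] [IsArtinianRing R]

/-- The ideal of the elements `x` with `c * x` in the ideal generated by `b` and `d`. -/
def colonIdeal (b c d : R) : Ideal R :=
  Submodule.comap (LinearMap.mulLeft R c) (Ideal.span {b, d})

lemma mem_colonIdeal {b c d x : R} : x ∈ colonIdeal b c d ↔ c * x ∈ Ideal.span {b, d} := Iff.rfl

/-- There is an `x` with `c * x` in `(b, d)` which is not in `(b, d) + a * ((b, d) : c)`. -/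
lemma exists_colon (a b c d : R) (ha : a ∈ IsLocalRing.maximalIdeal R)
    (hb : b ∈ IsLocalRing.maximalIdeal R) (hc : c ∈ IsLocalRing.maximalIdeal R)
    (hd : d ∈ IsLocalRing.maximalIdeal R) :
    ∃ x ∈ colonIdeal b c d, ∀ p q r, r ∈ colonIdeal b c d → x ≠ b * p + d * q + a * r := by
  classical
  by_contra hcon
  push Not at hcon
  have hle : colonIdeal b c d ≤ Ideal.span {b, d} := by
    refine Submodule.le_of_le_smul_of_le_jacobson_bot (I := Ideal.span {a})
      (IsNoetherian.noetherian _) ?_ ?_
    · rw [IsLocalRing.jacobson_eq_maximalIdeal ⊥ bot_ne_top, Ideal.span_singleton_le_iff_mem]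
      exact ha
    · intro x hx
      obtain ⟨p, q, r, hr, he⟩ := hcon x hx
      rw [he]
      refine Submodule.add_mem_sup ?_ ?_
      · exact Ideal.add_mem _ (Ideal.mul_mem_right _ _ (Ideal.subset_span (by simp)))
          (Ideal.mul_mem_right _ _ (Ideal.subset_span (by simp)))
      · exact Submodule.smul_mem_smul (Ideal.subset_span rfl) hr
  have hbd : Ideal.span {b, d} ≤ IsLocalRing.maximalIdeal R := by
    rw [Ideal.span_le]
    rintro x hx
    rcases hx with rfl | hx
    · exact hb
    · rw [hx]; exact hd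
  have hnil : ∃ n : ℕ, c ^ n ∈ Ideal.span {b, d} := by
    obtain ⟨n, hn⟩ := IsArtinianRing.isNilpotent_jacobson_bot (R := R)
    rw [IsLocalRing.jacobson_eq_maximalIdeal ⊥ bot_ne_top] at hn
    refine ⟨n, ?_⟩
    have := Ideal.pow_mem_pow hc n
    rw [hn] at this
    rw [(Ideal.mem_bot.mp this)]
    exact Ideal.zero_mem _
  have hmin := Nat.find_spec hnil
  rcases Nat.eq_zero_or_pos (Nat.find hnil) with h0 | h0
  · rw [h0, pow_zero] at hmin
    exact (Ideal.ne_top_iff_one _).mp (IsLocalRing.maximalIdeal.isMaximal R).ne_top (hbd hmin)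
  · obtain ⟨n, hn⟩ : ∃ n, Nat.find hnil = n + 1 := ⟨Nat.find hnil - 1, by omega⟩
    rw [hn, pow_succ'] at hmin
    have h1 : c ^ n ∈ Ideal.span {b, d} := hle hmin
    have h2 := Nat.find_min' hnil h1
    omega

end colon

section main

variable {R : Type*} [CommRing R]
variable {C : Type*} [AddCommGroup C] [Module R C]

/-- Pairs of elements of `C` which define an endomorphism. -/
def phi (C : Type*) [AddCommGroup C] [Module R C] (A : Matrix (Fin 2) (Fin 2) R) :
    (Fin 2 → C) →ₗ[R] (Fin 2 → C) :=
  LinearMap.pi fun j => A 0 j • LinearMap.proj 0 + A 1 j • LinearMap.proj 1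

lemma phi_apply (A : Matrix (Fin 2) (Fin 2) R) (x : Fin 2 → C) (j : Fin 2) :
    phi C A x j = A 0 j • x 0 + A 1 j • x 1 := rfl

/-- The generators and relations of the cokernel of `A`. -/
structure Presents (A : Matrix (Fin 2) (Fin 2) R) (f : (Fin 2 → R) →ₗ[R] C) : Prop where
  surj : Function.Surjective f
  rel : ∀ v, f v = 0 ↔ ∃ t : Fin 2 → R, ∀ k, v k = A k 0 * t 0 + A k 1 * t 1

variable {A : Matrix (Fin 2) (Fin 2) R} {f : (Fin 2 → R) →ₗ[R] C}

lemma apply_eq (f : (Fin 2 → R) →ₗ[R] C) (v : Fin 2 → R) :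
    f v = v 0 • f (Pi.single 0 1) + v 1 • f (Pi.single 1 1) := by
  rw [← map_smul, ← map_smul, ← map_add]
  congr 1
  funext i
  fin_cases i <;> simp

/-- Evaluation of the endomorphisms on the two generators. -/
def ev (f : (Fin 2 → R) →ₗ[R] C) : (C →ₗ[R] C) →ₗ[R] (Fin 2 → C) where
  toFun g i := g (f (Pi.single i 1))
  map_add' _ _ := rfl
  map_smul' _ _ := rfl

lemma ev_injective (h : Presents A f) : Function.Injective (ev f) := by
  rw [← LinearMap.ker_eq_bot, LinearMap.ker_eq_bot']
  intro g hg
  ext x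
  obtain ⟨v, rfl⟩ := h.surj x
  have h0 : g (f (Pi.single 0 1)) = 0 := congrFun hg 0
  have h1 : g (f (Pi.single 1 1)) = 0 := congrFun hg 1
  rw [apply_eq f v, map_add, map_smul, map_smul, h0, h1]
  simp

lemma ker_phi_le (h : Presents A f) : LinearMap.ker (phi C A) ≤ LinearMap.range (ev f) := by
  intro x hx
  rw [LinearMap.mem_ker] at hx
  let l : (Fin 2 → R) →ₗ[R] C := Fintype.linearCombination R x
  have hl : ∀ v, l v = v 0 • x 0 + v 1 • x 1 := fun v => by
    simp [l, Fintype.linearCombination_apply, Fin.sum_univ_two]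
  have hker : LinearMap.ker f ≤ LinearMap.ker l := by
    intro v hv
    obtain ⟨t, ht⟩ := (h.rel v).mp hv
    rw [LinearMap.mem_ker, hl, ht, ht]
    have e0 : A 0 0 • x 0 + A 1 0 • x 1 = 0 := congrFun hx 0
    have e1 : A 0 1 • x 0 + A 1 1 • x 1 = 0 := congrFun hx 1
    calc (A 0 0 * t 0 + A 0 1 * t 1) • x 0 + (A 1 0 * t 0 + A 1 1 * t 1) • x 1
        = t 0 • (A 0 0 • x 0 + A 1 0 • x 1) + t 1 • (A 0 1 • x 0 + A 1 1 • x 1) := by
          simp only [smul_add, smul_smul, add_smul, mul_comm (t 0), mul_comm (t 1)]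
          abel
      _ = 0 := by rw [e0, e1, smul_zero, smul_zero, add_zero]
  let g : C →ₗ[R] C := ((LinearMap.ker f).liftQ l hker).comp
    (f.quotKerEquivOfSurjective h.surj).symm.toLinearMap
  refine ⟨g, ?_⟩
  funext i
  change g (f (Pi.single i 1)) = x i
  have h1 : (f.quotKerEquivOfSurjective h.surj).symm (f (Pi.single i 1)) =
      (LinearMap.ker f).mkQ (Pi.single i 1) := by
    rw [LinearEquiv.symm_apply_eq]
    rfl
  simp only [g, LinearMap.comp_apply, LinearEquiv.coe_coe, h1, Submodule.mkQ_apply,
    Submodule.liftQ_apply, hl]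
  fin_cases i <;> simp

/-- The map from matrices to the cokernel of `phi`. -/
def psi (f : (Fin 2 → R) →ₗ[R] C) (A : Matrix (Fin 2) (Fin 2) R) :
    (Fin 2 → Fin 2 → R) →ₗ[R] ((Fin 2 → C) ⧸ LinearMap.range (phi C A)) :=
  (LinearMap.range (phi C A)).mkQ.comp (LinearMap.pi fun j => f.comp (LinearMap.proj j))

lemma psi_surjective (h : Presents A f) : Function.Surjective (psi f A) := by
  intro y
  obtain ⟨x, rfl⟩ := Submodule.mkQ_surjective _ y
  choose v hv using fun j => h.surj (x j)
  refine ⟨v, ?_⟩
  change (LinearMap.range (phi C A)).mkQ _ = _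
  congr 1
  funext j
  exact hv j

lemma mem_ker_psi (h : Presents A f) {X : Fin 2 → Fin 2 → R}
    (hX : X ∈ LinearMap.ker (psi f A)) :
    ∃ Y T : Fin 2 → Fin 2 → R, ∀ j k,
      X j k = A 0 j * Y 0 k + A 1 j * Y 1 k + (A k 0 * T j 0 + A k 1 * T j 1) := by
  rw [LinearMap.mem_ker] at hX
  change (LinearMap.range (phi C A)).mkQ _ = 0 at hX
  rw [Submodule.mkQ_apply, Submodule.Quotient.mk_eq_zero] at hX
  obtain ⟨y, hy⟩ := hX
  choose Y hY using fun i => h.surj (y i)
  have key : ∀ j, ∃ t : Fin 2 → R, ∀ k, (X j - (A 0 j • Y 0 + A 1 j • Y 1)) k =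
      A k 0 * t 0 + A k 1 * t 1 := by
    intro j
    rw [← h.rel, map_sub, map_add, map_smul, map_smul, hY, hY, sub_eq_zero]
    exact (congrFun hy j).symm
  choose T hT using key
  refine ⟨Y, T, fun j k => ?_⟩
  have := hT j k
  simp only [Pi.sub_apply, Pi.add_apply, Pi.smul_apply, smul_eq_mul] at this
  rw [← this]
  ring

/-- The trace of the product with the adjoint matrix. -/
def tau (A : Matrix (Fin 2) (Fin 2) R) : (Fin 2 → Fin 2 → R) →ₗ[R] R where
  toFun X := A 1 1 * X 0 0 - A 1 0 * X 1 0 - A 0 1 * X 0 1 + A 0 0 * X 1 1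
  map_add' X Y := by simp only [Pi.add_apply]; ring
  map_smul' r X := by simp only [Pi.smul_apply, smul_eq_mul, RingHom.id_apply]; ring

lemma tau_apply (X : Fin 2 → Fin 2 → R) :
    tau A X = A 1 1 * X 0 0 - A 1 0 * X 1 0 - A 0 1 * X 0 1 + A 0 0 * X 1 1 := rfl

/-- The entry `X 1 1` of the matrices with `tau A X = 0`, modulo three entries of `A`. -/
def rho (A : Matrix (Fin 2) (Fin 2) R) :
    LinearMap.ker (tau A) →ₗ[R] (R ⧸ Ideal.span {A 0 1, A 1 0, A 1 1}) :=
  (Submodule.mkQ _).comp (((LinearMap.proj 1).comp (LinearMap.proj 1)).comp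
    (LinearMap.ker (tau A)).subtype)

lemma rho_apply (X : LinearMap.ker (tau A)) :
    rho A X = Ideal.Quotient.mk (Ideal.span {A 0 1, A 1 0, A 1 1}) (X.1 1 1) := rfl

lemma mem_range_tau (i j : Fin 2) : A i j ∈ LinearMap.range (tau A) := by
  classical
  fin_cases i <;> fin_cases j
  · exact ⟨fun a b => if a = 1 ∧ b = 1 then 1 else 0, by simp [tau_apply]⟩
  · exact ⟨fun a b => if a = 0 ∧ b = 1 then -1 else 0, by simp [tau_apply]⟩
  · exact ⟨fun a b => if a = 1 ∧ b = 0 then -1 else 0, by simp [tau_apply]⟩
  · exact ⟨fun a b => if a = 0 ∧ b = 0 then 1 else 0, by simp [tau_apply]⟩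

variable [IsArtinianRing R]

/-- The length of `R / (entries of A)` is at most the length of the range of `rho A`. -/
lemma length_quot_le :
    Module.length R (R ⧸ LinearMap.range (tau A)) ≤
      Module.length R (LinearMap.range (rho A)) := by
  let K3 : Ideal R := Ideal.span {A 0 1, A 1 0, A 1 1}
  let μ : (R ⧸ K3) →ₗ[R] (R ⧸ K3) := A 0 0 • LinearMap.id
  have h1 : LinearMap.ker μ ≤ LinearMap.range (rho A) := by
    intro n hn
    obtain ⟨x, rfl⟩ := Ideal.Quotient.mk_surjective n
    have h2 : Ideal.Quotient.mk K3 (A 0 0 * x) = 0 := by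
      have : μ (Ideal.Quotient.mk K3 x) = 0 := hn
      simpa [μ, Algebra.smul_def] using this
    rw [Ideal.Quotient.eq_zero_iff_mem] at h2
    obtain ⟨p, q, hq, e1⟩ := Ideal.mem_span_insert.mp h2
    obtain ⟨q', r, hr, e2⟩ := Ideal.mem_span_insert.mp hq
    obtain ⟨s, e3⟩ := Ideal.mem_span_singleton'.mp hr
    let X : Fin 2 → Fin 2 → R := ![![-s, p], ![q', x]]
    have hX : X ∈ LinearMap.ker (tau A) := by
      rw [LinearMap.mem_ker, tau_apply]
      simp only [X, Matrix.cons_val_zero, Matrix.cons_val_one]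
      rw [e1, e2, ← e3]
      ring
    exact ⟨⟨X, hX⟩, rfl⟩
  have h3 : K3 ≤ LinearMap.range (tau A) := by
    rw [Ideal.span_le]
    rintro x hx
    simp only [Set.mem_insert_iff, Set.mem_singleton_iff] at hx
    rcases hx with rfl | rfl | rfl
    · exact mem_range_tau 0 1
    · exact mem_range_tau 1 0
    · exact mem_range_tau 1 1
  have h4 : Module.length R (R ⧸ LinearMap.range (tau A)) ≤
      Module.length R ((R ⧸ K3) ⧸ LinearMap.range μ) := by
    let q : (R ⧸ K3) →ₗ[R] (R ⧸ LinearMap.range (tau A)) :=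
      K3.liftQ (LinearMap.range (tau A)).mkQ (by rw [Submodule.ker_mkQ]; exact h3)
    have hq : Function.Surjective q := by
      intro y
      obtain ⟨x, rfl⟩ := Submodule.mkQ_surjective _ y
      exact ⟨K3.mkQ x, rfl⟩
    have hle : LinearMap.range μ ≤ LinearMap.ker q := by
      rintro _ ⟨n, rfl⟩
      obtain ⟨x, rfl⟩ := Submodule.mkQ_surjective _ n
      rw [LinearMap.mem_ker]
      change (LinearMap.range (tau A)).mkQ (A 0 0 • x) = 0
      rw [Submodule.mkQ_apply, Submodule.Quotient.mk_eq_zero, smul_eq_mul, mul_comm]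
      exact Submodule.smul_mem _ x (mem_range_tau 0 0)
    let q' := (LinearMap.range μ).liftQ q hle
    have hq' : Function.Surjective q' := by
      intro y
      obtain ⟨x, rfl⟩ := hq y
      exact ⟨(LinearMap.range μ).mkQ x, rfl⟩
    exact Module.length_le_of_surjective q' hq'
  calc _ ≤ Module.length R ((R ⧸ K3) ⧸ LinearMap.range μ) := h4
    _ = Module.length R (LinearMap.ker μ) := (length_ker_eq μ).symm
    _ ≤ _ := length_le_of_le h1

/-- **The main inequality.** -/
theorem length_lt [IsLocalRing R] (hA : ∀ i j, A i j ∈ IsLocalRing.maximalIdeal R)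
    (hdet : A 0 0 * A 1 1 - A 0 1 * A 1 0 = 0) (h : Presents A f) :
    Module.length R R + 1 ≤ Module.length R (C →ₗ[R] C) := by
  have hfin : Module.Finite R C := Module.Finite.of_surjective f h.surj
  have step1 : Module.length R ((Fin 2 → C) ⧸ LinearMap.range (phi C A)) ≤
      Module.length R (C →ₗ[R] C) := by
    rw [← length_ker_eq]
    refine (length_le_of_le (ker_phi_le h)).trans ?_
    exact (LinearEquiv.ofInjective (ev f) (ev_injective h)).length_eq.ge
  refine le_trans ?_ step1
  -- `B` is the kernel of `psi`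
  have hV : Module.length R (Fin 2 → Fin 2 → R) = Module.length R (LinearMap.ker (psi f A)) +
      Module.length R ((Fin 2 → C) ⧸ LinearMap.range (phi C A)) := by
    rw [length_eq_ker_add_range (psi f A), LinearMap.range_eq_top.mpr (psi_surjective h),
      Module.length_top]
  have hBle : LinearMap.ker (psi f A) ≤ LinearMap.ker (tau A) := by
    intro X hX
    obtain ⟨Y, T, hYT⟩ := mem_ker_psi h hX
    rw [LinearMap.mem_ker, tau_apply, hYT, hYT, hYT, hYT]
    linear_combination (Y 0 0 + Y 1 1 + T 0 0 + T 1 1) * hdet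
  let B' : Submodule R (LinearMap.ker (tau A)) :=
    (LinearMap.ker (psi f A)).comap (LinearMap.ker (tau A)).subtype
  have hB' : Module.length R B' = Module.length R (LinearMap.ker (psi f A)) :=
    (Submodule.comapSubtypeEquivOfLe hBle).length_eq
  have hB'le : B' ≤ LinearMap.ker (rho A) := by
    intro X hX
    obtain ⟨Y, T, hYT⟩ := mem_ker_psi h (X := X.1) hX
    rw [LinearMap.mem_ker, rho_apply, Ideal.Quotient.eq_zero_iff_mem, hYT]
    refine Ideal.add_mem _ (Ideal.add_mem _ ?_ ?_) (Ideal.add_mem _ ?_ ?_) <;>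
      exact Ideal.mul_mem_right _ _ (Ideal.subset_span (by simp))
  have hne : B' ≠ LinearMap.ker (rho A) := by
    intro heq
    obtain ⟨x, hx, hx2⟩ := exists_colon (A 0 0) (A 0 1) (A 1 0) (A 1 1) (hA _ _) (hA _ _)
      (hA _ _) (hA _ _)
    rw [mem_colonIdeal] at hx
    obtain ⟨y, z', hz', e1⟩ := Ideal.mem_span_insert.mp hx
    obtain ⟨z, e2⟩ := Ideal.mem_span_singleton'.mp hz'
    let X : Fin 2 → Fin 2 → R := ![![z, -y], ![x, 0]]
    have hX : X ∈ LinearMap.ker (tau A) := by
      rw [LinearMap.mem_ker, tau_apply]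
      simp only [X, Matrix.cons_val_zero, Matrix.cons_val_one]
      rw [e1, ← e2]
      ring
    have hX2 : (⟨X, hX⟩ : LinearMap.ker (tau A)) ∈ LinearMap.ker (rho A) := by
      rw [LinearMap.mem_ker, rho_apply]
      simp [X]
    rw [← heq] at hX2
    obtain ⟨Y, T, hYT⟩ := mem_ker_psi h (X := X) hX2
    have e3 := hYT 1 1
    have e4 := hYT 1 0
    simp only [X, Matrix.cons_val_zero, Matrix.cons_val_one] at e3 e4
    refine hx2 (Y 0 0 + T 1 1) (Y 1 0) (T 1 0) ?_ ?_
    · rw [mem_colonIdeal]
      have : A 1 0 * T 1 0 = A 0 1 * (-(Y 0 1)) + A 1 1 * (-(Y 1 1 + T 1 1)) := by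
        linear_combination -e3
      rw [this]
      exact Ideal.add_mem _ (Ideal.mul_mem_right _ _ (Ideal.subset_span (by simp)))
        (Ideal.mul_mem_right _ _ (Ideal.subset_span (by simp)))
    · linear_combination e4
  have hlt := length_lt_of_lt (lt_of_le_of_ne hB'le hne)
  rw [hB'] at hlt
  have e1 := length_eq_ker_add_range (tau A)
  have e2 := length_eq_ker_add_range (rho A)
  have e3 := length_eq_sub_add_quot (LinearMap.range (tau A))
  have e4 := length_quot_le (A := A)
  have hfinB : Module.length R (LinearMap.ker (psi f A)) ≠ ⊤ := Module.length_ne_top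
  rw [hV, e2] at e1
  rw [e3]
  have : Module.length R (LinearMap.ker (psi f A)) +
      (Module.length R (LinearMap.range (tau A)) +
        Module.length R (R ⧸ LinearMap.range (tau A)) + 1) ≤
      Module.length R (LinearMap.ker (psi f A)) +
      Module.length R ((Fin 2 → C) ⧸ LinearMap.range (phi C A)) := by
    rw [e1]
    calc _ = (Module.length R (LinearMap.ker (psi f A)) + 1) +
        Module.length R (R ⧸ LinearMap.range (tau A)) +
          Module.length R (LinearMap.range (tau A)) := by ring
      _ ≤ _ := by gcongr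
  exact (ENat.add_le_add_iff_left hfinB).mp this

end main

end Pool.Agent.H938.BT
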