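import Pool.Agent.H938.BT.Inj

/-!
# Square matrices with determinant zero over Artinian local rings

Let `R` be an Artinian local ring, `A` a square matrix over the maximal ideal with `det A = 0`, `C`
the cokernel of `A`, generated by the elements `w i`, and `C₀ = C / R w i`. Then
`length (J) + length (End C₀) + 1 ≤ length (End C)`, where `J` is the ideal generated by the maximal
minors of `A` without the row `i`.
-/

namespace Pool.Agent.H938.BT

open Module

section gen

variable {R : Type*} [CommRing R] {ι : Type*} [Fintype ι] [DecidableEq ι]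
variable {C : Type*} [AddCommGroup C] [Module R C]

/-- Families of elements of `C` which define a homomorphism from the cokernel of `A` to `C`. -/
def phiN (C : Type*) [AddCommGroup C] [Module R C] (A : Matrix ι ι R) :
    (ι → C) →ₗ[R] (ι → C) :=
  LinearMap.pi fun j => ∑ i, A i j • LinearMap.proj i

omit [DecidableEq ι] in
lemma phiN_apply (A : Matrix ι ι R) (x : ι → C) (j : ι) :
    phiN C A x j = ∑ i, A i j • x i := by
  simp [phiN, LinearMap.sum_apply]

/-- The generators and relations of the cokernel of `A`. -/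
structure PresentsN (A : Matrix ι ι R) (f : (ι → R) →ₗ[R] C) : Prop where
  surj : Function.Surjective f
  rel : ∀ v, f v = 0 ↔ ∃ t : ι → R, v = A.mulVec t

variable {A : Matrix ι ι R} {f : (ι → R) →ₗ[R] C}

lemma apply_eq_sum (f : (ι → R) →ₗ[R] C) (v : ι → R) :
    f v = ∑ i, v i • f (Pi.single i 1) := by
  conv_lhs => rw [pi_eq_sum_univ' v]
  rw [map_sum]
  refine Finset.sum_congr rfl fun i _ => ?_
  rw [map_smul]

lemma col_rel (h : PresentsN A f) (j : ι) : ∑ i, A i j • f (Pi.single i 1) = 0 := by
  have : f (A.mulVec (Pi.single j 1)) = 0 := (h.rel _).mpr ⟨_, rfl⟩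
  rw [Matrix.mulVec_single_one] at this
  rw [apply_eq_sum f] at this
  exact this

/-- Evaluation of the endomorphisms on the generators. -/
def evN (f : (ι → R) →ₗ[R] C) : (C →ₗ[R] C) →ₗ[R] (ι → C) where
  toFun g i := g (f (Pi.single i 1))
  map_add' _ _ := rfl
  map_smul' _ _ := rfl

lemma evN_injective (h : Function.Surjective f) : Function.Injective (evN f) := by
  rw [← LinearMap.ker_eq_bot, LinearMap.ker_eq_bot']
  intro g hg
  ext x
  obtain ⟨v, rfl⟩ := h x
  rw [apply_eq_sum f v, map_sum]
  refine (Finset.sum_eq_zero fun i _ => ?_)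
  rw [map_smul]
  have : g (f (Pi.single i 1)) = 0 := congrFun hg i
  rw [this, smul_zero]

lemma ker_phiN_le (h : PresentsN A f) : LinearMap.ker (phiN C A) ≤ LinearMap.range (evN f) := by
  intro x hx
  rw [LinearMap.mem_ker] at hx
  let l : (ι → R) →ₗ[R] C := Fintype.linearCombination R x
  have hl : ∀ v, l v = ∑ i, v i • x i := fun v => by
    simp [l, Fintype.linearCombination_apply]
  have hker : LinearMap.ker f ≤ LinearMap.ker l := by
    intro v hv
    obtain ⟨t, rfl⟩ := (h.rel v).mp hv
    rw [LinearMap.mem_ker, hl]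
    calc ∑ i, A.mulVec t i • x i = ∑ i, ∑ j, t j • (A i j • x i) := by
          refine Finset.sum_congr rfl fun i _ => ?_
          simp only [Matrix.mulVec, dotProduct, Finset.sum_smul, smul_smul, mul_comm]
      _ = ∑ j, t j • ∑ i, A i j • x i := by
          rw [Finset.sum_comm]
          simp only [Finset.smul_sum]
      _ = 0 := by
          refine Finset.sum_eq_zero fun j _ => ?_
          have := congrFun hx j
          rw [phiN_apply] at this
          rw [this, Pi.zero_apply, smul_zero]
  let g : C →ₗ[R] C := ((LinearMap.ker f).liftQ l hker).comp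
    (f.quotKerEquivOfSurjective h.surj).symm.toLinearMap
  refine ⟨g, ?_⟩
  funext i
  change g (f (Pi.single i 1)) = x i
  have h1 : (f.quotKerEquivOfSurjective h.surj).symm (f (Pi.single i 1)) =
      (LinearMap.ker f).mkQ (Pi.single i 1) := by
    rw [LinearEquiv.symm_apply_eq]
    rfl
  simp only [g, LinearMap.comp_apply, LinearEquiv.coe_coe, h1, Submodule.mkQ_apply,
    Submodule.liftQ_apply, hl]
  simp [Pi.single_apply]

/-- The homomorphisms from the cokernel to `R` given by the rows of the adjoint matrix. -/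
lemma exists_U (h : PresentsN A f) (hdet : A.det = 0) :
    ∃ U : C →ₗ[R] (ι → R), ∀ v, U (f v) = A.adjugate.mulVec v := by
  have hker : LinearMap.ker f ≤ LinearMap.ker A.adjugate.mulVecLin := by
    intro v hv
    obtain ⟨t, rfl⟩ := (h.rel v).mp hv
    rw [LinearMap.mem_ker, Matrix.mulVecLin_apply, Matrix.mulVec_mulVec, Matrix.adjugate_mul, hdet,
      zero_smul, Matrix.zero_mulVec]
  refine ⟨((LinearMap.ker f).liftQ A.adjugate.mulVecLin hker).comp
    (f.quotKerEquivOfSurjective h.surj).symm.toLinearMap, fun v => ?_⟩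
  have h1 : (f.quotKerEquivOfSurjective h.surj).symm (f v) = (LinearMap.ker f).mkQ v := by
    rw [LinearEquiv.symm_apply_eq]
    rfl
  simp only [LinearMap.comp_apply, LinearEquiv.coe_coe, h1, Submodule.mkQ_apply,
    Submodule.liftQ_apply, Matrix.mulVecLin_apply]

/-- The ideal generated by the maximal minors of the matrix without the row `i`. -/
def cofactorIdeal (A : Matrix ι ι R) (i : ι) : Ideal R :=
  Ideal.span (Set.range fun j => A.adjugate j i)

/-- The quotient of `C` by one generator. -/
abbrev ModGen (f : (ι → R) →ₗ[R] C) (i : ι) : Type _ :=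
  C ⧸ Submodule.span R {f (Pi.single i 1)}

variable [IsLocalRing R] [IsArtinianRing R]

/-- A nonzero module has a nonzero element annihilated by the maximal ideal. -/
lemma exists_socle {M : Type*} [AddCommGroup M] [Module R M] [Nontrivial M] :
    ∃ x : M, x ≠ 0 ∧ ∀ r ∈ IsLocalRing.maximalIdeal R, r • x = 0 := by
  classical
  obtain ⟨n, hn⟩ := IsArtinianRing.isNilpotent_jacobson_bot (R := R)
  rw [IsLocalRing.jacobson_eq_maximalIdeal ⊥ bot_ne_top] at hn
  have hex : ∃ k : ℕ, ∀ r ∈ (IsLocalRing.maximalIdeal R) ^ k, ∀ x : M, r • x = 0 := by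
    refine ⟨n, fun r hr x => ?_⟩
    rw [hn] at hr
    rw [Ideal.mem_bot.mp hr, zero_smul]
  have h0 : Nat.find hex ≠ 0 := by
    intro h0
    have := Nat.find_spec hex
    rw [h0] at this
    obtain ⟨x, hx⟩ := exists_ne (0 : M)
    exact hx (by simpa using this 1 (by simp) x)
  obtain ⟨k, hk⟩ : ∃ k, Nat.find hex = k + 1 := ⟨Nat.find hex - 1, by omega⟩
  have hmin := Nat.find_min hex (m := k) (by omega)
  push Not at hmin
  obtain ⟨r, hr, x, hx⟩ := hmin
  refine ⟨r • x, hx, fun s hs => ?_⟩
  rw [smul_smul]
  refine Nat.find_spec hex _ ?_ x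
  rw [hk, pow_succ']
  exact Ideal.mul_mem_mul hs hr

/-- **The general inequality.** -/
theorem length_generalN (h : PresentsN A f) (hA : ∀ i j, A i j ∈ IsLocalRing.maximalIdeal R)
    (hdet : A.det = 0) (i₀ : ι) [Nontrivial (ModGen f i₀)] :
    Module.length R (cofactorIdeal A i₀) +
      Module.length R (ModGen f i₀ →ₗ[R] ModGen f i₀) + 1 ≤ Module.length R (C →ₗ[R] C) := by
  have hfin : Module.Finite R C := Module.Finite.of_surjective f h.surj
  let C₀ := ModGen f i₀
  let π : C →ₗ[R] C₀ := Submodule.mkQ _
  have hπ : Function.Surjective π := Submodule.mkQ_surjective _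
  have hπ0 : π (f (Pi.single i₀ 1)) = 0 := by
    change (Submodule.mkQ _) _ = 0
    rw [Submodule.mkQ_apply, Submodule.Quotient.mk_eq_zero]
    exact Submodule.mem_span_singleton_self _
  -- step 1
  have step1 : Module.length R ((ι → C) ⧸ LinearMap.range (phiN C A)) ≤
      Module.length R (C →ₗ[R] C) := by
    rw [← length_ker_eq]
    refine (length_le_of_le (ker_phiN_le h)).trans ?_
    exact (LinearEquiv.ofInjective (evN f) (evN_injective h.surj)).length_eq.ge
  -- step 3: the endomorphisms of `C₀`
  have step3 : Module.length R (C₀ →ₗ[R] C₀) + 1 ≤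
      Module.length R ((ι → C₀) ⧸ LinearMap.range (phiN C₀ A)) := by
    rw [← length_ker_eq]
    let f₀ : (ι → R) →ₗ[R] C₀ := π.comp f
    have hf₀ : Function.Surjective f₀ := hπ.comp h.surj
    let K₀ : Submodule R (ι → C₀) := LinearMap.range (evN f₀)
    have hK₀ : Module.length R (C₀ →ₗ[R] C₀) = Module.length R K₀ :=
      (LinearEquiv.ofInjective (evN f₀) (evN_injective hf₀)).length_eq
    have hle : K₀ ≤ LinearMap.ker (phiN C₀ A) := by
      rintro _ ⟨g, rfl⟩
      rw [LinearMap.mem_ker]
      funext j
      rw [phiN_apply]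
      change ∑ i, A i j • g (π (f (Pi.single i 1))) = 0
      have := congrArg (fun z => g (π z)) (col_rel h j)
      simpa only [map_sum, map_smul, map_zero] using this
    obtain ⟨ζ, hζ, hζ2⟩ := exists_socle (R := R) (M := C₀)
    have hmem : Pi.single i₀ ζ ∈ LinearMap.ker (phiN C₀ A) := by
      rw [LinearMap.mem_ker]
      funext j
      rw [phiN_apply, Finset.sum_eq_single i₀]
      · rw [Pi.single_eq_same, hζ2 _ (hA _ _), Pi.zero_apply]
      · intro i _ hi
        rw [Pi.single_eq_of_ne hi, smul_zero]
      · intro hi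
        exact absurd (Finset.mem_univ _) hi
    have hnot : Pi.single i₀ ζ ∉ K₀ := by
      rintro ⟨g, hg⟩
      have := congrFun hg i₀
      rw [Pi.single_eq_same] at this
      change g (π (f (Pi.single i₀ 1))) = ζ at this
      rw [hπ0, map_zero] at this
      exact hζ this.symm
    have hlt : K₀ < LinearMap.ker (phiN C₀ A) :=
      lt_of_le_of_ne hle fun heq => hnot (heq ▸ hmem)
    rw [hK₀]
    exact length_lt_of_lt hlt
  -- step 2
  obtain ⟨U, hU⟩ := exists_U h hdet
  let F := ι → C
  let prj : (ι → C) →ₗ[R] (ι → C₀) := LinearMap.pi fun j => π.comp (LinearMap.proj j)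
  have hprj : Function.Surjective prj := by
    intro y
    choose x hx using fun j => hπ (y j)
    exact ⟨x, funext hx⟩
  let Ξ : (ι → C) →ₗ[R] ((ι → C₀) ⧸ LinearMap.range (phiN C₀ A)) := (Submodule.mkQ _).comp prj
  have hΞ : Function.Surjective Ξ := (Submodule.mkQ_surjective _).comp hprj
  have hcomm : ∀ x, prj (phiN C A x) = phiN C₀ A (prj x) := by
    intro x
    funext j
    rw [phiN_apply]
    change π (phiN C A x j) = ∑ i, A i j • π (x i)
    rw [phiN_apply, map_sum]
    simp only [map_smul]
  have hle : LinearMap.range (phiN C A) ≤ LinearMap.ker Ξ := by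
    rintro _ ⟨x, rfl⟩
    rw [LinearMap.mem_ker]
    change (Submodule.mkQ _) (prj _) = 0
    rw [hcomm, Submodule.mkQ_apply, Submodule.Quotient.mk_eq_zero]
    exact ⟨_, rfl⟩
  let τ : (ι → C) →ₗ[R] R := ∑ j, (LinearMap.proj j).comp (U.comp (LinearMap.proj j))
  have hτ : ∀ x, τ x = ∑ j, U (x j) j := by
    intro x
    simp [τ, LinearMap.sum_apply]
  have hτφ : ∀ x, τ (phiN C A x) = 0 := by
    intro x
    choose V hV using fun i => h.surj (x i)
    rw [hτ]
    have e1 : ∀ j, U (phiN C A x j) j = ∑ i, A i j * (A.adjugate.mulVec (V i)) j := by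
      intro j
      rw [phiN_apply, map_sum, Finset.sum_apply]
      refine Finset.sum_congr rfl fun i _ => ?_
      rw [map_smul, ← hV, hU, Pi.smul_apply, smul_eq_mul]
    simp only [e1]
    rw [Finset.sum_comm]
    refine Finset.sum_eq_zero fun i _ => ?_
    have : (A.mulVec (A.adjugate.mulVec (V i))) i = 0 := by
      rw [Matrix.mulVec_mulVec, Matrix.mul_adjugate, hdet, zero_smul, Matrix.zero_mulVec]
      rfl
    simpa [Matrix.mulVec, dotProduct] using this
  let τK : LinearMap.ker Ξ →ₗ[R] R := τ.comp (LinearMap.ker Ξ).subtype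
  have hJ : cofactorIdeal A i₀ ≤ LinearMap.range τK := by
    rw [cofactorIdeal, Ideal.span_le]
    rintro _ ⟨j, rfl⟩
    have hx : (Pi.single j (f (Pi.single i₀ 1)) : ι → C) ∈ LinearMap.ker Ξ := by
      rw [LinearMap.mem_ker]
      change (Submodule.mkQ _) (prj _) = 0
      have : prj (Pi.single j (f (Pi.single i₀ 1))) = 0 := by
        funext k
        change π ((Pi.single j (f (Pi.single i₀ 1)) : ι → C) k) = 0
        by_cases hk : k = j
        · subst hk
          rw [Pi.single_eq_same, hπ0]
        · rw [Pi.single_eq_of_ne hk, map_zero]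
      rw [this, map_zero]
    refine ⟨⟨_, hx⟩, ?_⟩
    change τ (Pi.single j (f (Pi.single i₀ 1))) = _
    rw [hτ, Finset.sum_eq_single j]
    · rw [Pi.single_eq_same, hU, Matrix.mulVec_single_one]
      rfl
    · intro k _ hk
      rw [Pi.single_eq_of_ne hk, map_zero, Pi.zero_apply]
    · intro hk
      exact absurd (Finset.mem_univ _) hk
  have hrange : Module.length R (LinearMap.range (phiN C A)) ≤
      Module.length R (LinearMap.ker τK) := by
    let j : LinearMap.range (phiN C A) →ₗ[R] LinearMap.ker τK :=
      LinearMap.codRestrict _ (Submodule.inclusion hle) (by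
        rintro ⟨_, x, rfl⟩
        rw [LinearMap.mem_ker]
        exact hτφ x)
    refine Module.length_le_of_injective j ?_
    intro a b hab
    have : Submodule.inclusion hle a = Submodule.inclusion hle b := congrArg Subtype.val hab
    exact Submodule.inclusion_injective hle this
  have e1 := length_eq_sub_add_quot (LinearMap.range (phiN C A))
  have e2 := length_eq_ker_add_range Ξ
  rw [LinearMap.range_eq_top.mpr hΞ, Module.length_top] at e2
  have e3 := length_eq_ker_add_range τK
  have e4 : Module.length R (cofactorIdeal A i₀) ≤ Module.length R (LinearMap.range τK) :=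
    length_le_of_le hJ
  have hfinB : Module.length R (LinearMap.range (phiN C A)) ≠ ⊤ := Module.length_ne_top
  refine le_trans ?_ step1
  refine (ENat.add_le_add_iff_left hfinB).mp ?_
  rw [← e1, e2, e3]
  calc _ = (Module.length R (LinearMap.range (phiN C A)) +
        Module.length R (cofactorIdeal A i₀)) + (Module.length R (C₀ →ₗ[R] C₀) + 1) := by ring
    _ ≤ _ := by gcongr

end gen

end Pool.Agent.H938.BT
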