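import Pool.Agent.H938.BT.Core

/-!
# Lengths of the modules of homomorphisms into the injective hull of the residue field
-/

namespace Pool.Agent.H938.BT

open Module

universe u v

section dual

variable {S : Type u} [CommRing S] [IsLocalRing S] {E : Type v} [AddCommGroup E] [Module S E]

/-- Restriction to a submodule and its kernel. -/
lemma length_hom_add (hE : Module.Baer S E) {M : Type*} [AddCommGroup M] [Module S M]
    (N : Submodule S M) :
    Module.length S (M →ₗ[S] E) =
      Module.length S ((M ⧸ N) →ₗ[S] E) + Module.length S (N →ₗ[S] E) := by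
  refine Module.length_eq_add_of_exact (LinearMap.lcomp S E N.mkQ) (LinearMap.lcomp S E N.subtype)
    ?_ ?_ ?_
  · intro g h hgh
    refine LinearMap.ext fun x => ?_
    obtain ⟨y, rfl⟩ := Submodule.mkQ_surjective _ x
    exact LinearMap.congr_fun hgh y
  · intro g
    obtain ⟨h, hh⟩ := hE.extension_property N.subtype (Submodule.subtype_injective _) g
    exact ⟨h, hh⟩
  · rw [LinearMap.exact_iff]
    ext g
    rw [LinearMap.mem_ker]
    constructor
    · intro hg
      have hle : N ≤ LinearMap.ker g := by
        intro x hx
        exact LinearMap.congr_fun hg ⟨x, hx⟩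
      refine ⟨N.liftQ g hle, ?_⟩
      ext x
      rfl
    · rintro ⟨h, rfl⟩
      ext x
      change h (N.mkQ x.1) = 0
      rw [Submodule.mkQ_apply, (Submodule.Quotient.mk_eq_zero N).mpr x.2, map_zero]

/-- If `E` is injective and the maps from the residue field to `E` have length one, then the
module of homomorphisms from `M` to `E` has the length of `M`. -/
lemma length_hom (hE : Module.Baer S E)
    (hk : Module.length S (IsLocalRing.ResidueField S →ₗ[S] E) = 1)
    (M : Type*) [AddCommGroup M] [Module S M] (hM : IsFiniteLength S M) :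
    Module.length S (M →ₗ[S] E) = Module.length S M := by
  induction hM with
  | of_subsingleton => 
    rw [Module.length_eq_zero, Module.length_eq_zero]
  | @of_simple_quotient M _ _ N hs hN ih =>
    rw [length_hom_add hE N, length_eq_sub_add_quot N, ih, add_comm]
    congr 1
    rw [Module.length_eq_one S (M ⧸ N)]
    obtain ⟨m, hm, ⟨e⟩⟩ := isSimpleModule_iff_quot_maximal.mp hs
    obtain rfl := IsLocalRing.eq_maximalIdeal hm
    rw [← hk]
    exact (LinearEquiv.congrLeft E S e).length_eq

/-- An injective module with nonzero maps from the residue field is faithful. -/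
lemma faithful (hE : Module.Baer S E) [IsArtinianRing S]
    (hk : Module.length S (IsLocalRing.ResidueField S →ₗ[S] E) = 1) (r : S)
    (hr : ∀ x : E, r • x = 0) : r = 0 := by
  by_contra hne
  let N : Submodule S S := Ideal.span {r}
  have h1 : Module.length S (N →ₗ[S] E) = Module.length S N :=
    length_hom hE hk N (isFiniteLength_iff_isNoetherian_isArtinian.mpr ⟨inferInstance, inferInstance⟩)
  have h2 : Nontrivial N := by
    refine ⟨⟨⟨r, Ideal.subset_span rfl⟩, 0, ?_⟩⟩
    intro h
    exact hne (congrArg Subtype.val h)
  have h3 : 0 < Module.length S (N →ₗ[S] E) := by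
    rw [h1]
    exact Module.length_pos
  rw [Module.length_pos_iff] at h3
  obtain ⟨g, hg⟩ := exists_ne (0 : N →ₗ[S] E)
  obtain ⟨h, hh⟩ := hE.extension_property N.subtype (Submodule.subtype_injective _) g
  apply hg
  rw [← hh]
  ext x
  obtain ⟨s, hs⟩ := Ideal.mem_span_singleton'.mp x.2
  change h x.1 = 0
  rw [← hs, mul_comm, ← mul_one (r * s), ← smul_eq_mul, map_smul, mul_comm, mul_smul, hr, smul_zero]

end dual

end Pool.Agent.H938.BT
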