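import Pool.Agent.H938.BT.Gen

/-!
# Square presentations of canonical modules
-/

namespace Pool.Agent.H938.BT

open Module

universe u v

section gen

variable {R : Type u} [CommRing R] {C : Type v} [AddCommGroup C] [Module R C]
variable {ι : Type} [Fintype ι] [DecidableEq ι]

lemma presentsN_of_map {f : (ι → R) →ₗ[R] C} (hf : Function.Surjective f)
    (g : (ι → R) →ₗ[R] (ι → R)) (hg : LinearMap.range g = LinearMap.ker f) :
    PresentsN (LinearMap.toMatrix' g) f := by
  refine ⟨hf, fun v => ?_⟩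
  rw [← LinearMap.mem_ker, ← hg]
  constructor
  · rintro ⟨t, rfl⟩
    exact ⟨t, by rw [LinearMap.toMatrix'_mulVec]⟩
  · rintro ⟨t, rfl⟩
    exact ⟨t, by rw [LinearMap.toMatrix'_mulVec]⟩

/-- The determinant annihilates the cokernel. -/
lemma det_smulN {A : Matrix ι ι R} {f : (ι → R) →ₗ[R] C} (h : PresentsN A f)
    (x : C) : A.det • x = 0 := by
  obtain ⟨v, rfl⟩ := h.surj x
  rw [← map_smul, h.rel]
  refine ⟨A.adjugate.mulVec v, ?_⟩
  rw [Matrix.mulVec_mulVec, Matrix.mul_adjugate, Matrix.smul_mulVec, Matrix.one_mulVec]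

/-- Reduction of a presentation modulo an ideal. -/
lemma presentsN_quot {A : Matrix ι ι R} {f : (ι → R) →ₗ[R] C} (h : PresentsN A f)
    (I : Ideal R) :
    ∃ f' : (ι → R ⧸ I) →ₗ[R ⧸ I] (C ⧸ (I • ⊤ : Submodule R C)),
      PresentsN (A.map (Ideal.Quotient.mk I)) f' ∧
      ∀ i, f' (Pi.single i 1) = (I • ⊤ : Submodule R C).mkQ (f (Pi.single i 1)) := by
  let π : C →ₗ[R] (C ⧸ (I • ⊤ : Submodule R C)) := (I • ⊤ : Submodule R C).mkQ
  let f' : (ι → R ⧸ I) →ₗ[R ⧸ I] (C ⧸ (I • ⊤ : Submodule R C)) :=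
    Fintype.linearCombination (R ⧸ I) (fun i => π (f (Pi.single i 1)))
  have hf' : ∀ v : ι → R, f' (fun i => Ideal.Quotient.mk I (v i)) = π (f v) := by
    intro v
    rw [apply_eq_sum f v, map_sum]
    simp only [f', Fintype.linearCombination_apply, map_smul]
    rfl
  have hmul : ∀ t : ι → R, (fun i => Ideal.Quotient.mk I (A.mulVec t i)) =
      (A.map (Ideal.Quotient.mk I)).mulVec (fun i => Ideal.Quotient.mk I (t i)) := by
    intro t
    funext i
    simp [Matrix.mulVec, dotProduct]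
  refine ⟨f', ⟨?_, ?_⟩, ?_⟩
  · intro y
    obtain ⟨x, rfl⟩ := Submodule.mkQ_surjective _ y
    obtain ⟨v, rfl⟩ := h.surj x
    exact ⟨_, hf' v⟩
  · intro v
    choose w hw using fun i => Ideal.Quotient.mk_surjective (v i)
    obtain rfl : v = fun i => Ideal.Quotient.mk I (w i) := funext fun i => (hw i).symm
    rw [hf']
    constructor
    · intro h0
      change (I • ⊤ : Submodule R C).mkQ (f w) = 0 at h0
      rw [Submodule.mkQ_apply, Submodule.Quotient.mk_eq_zero] at h0
      have h1 : (I • ⊤ : Submodule R C) = (I • ⊤ : Submodule R (ι → R)).map f := by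
        rw [Submodule.map_smul'', Submodule.map_top, LinearMap.range_eq_top.mpr h.surj]
      rw [h1] at h0
      obtain ⟨u, hu, hfu⟩ := h0
      have hu' : ∀ i, u i ∈ I := by
        intro i
        have h2 : u i ∈ (I • ⊤ : Submodule R (ι → R)).map (LinearMap.proj i) := ⟨u, hu, rfl⟩
        rw [Submodule.map_smul''] at h2
        have h3 : I • Submodule.map (LinearMap.proj i : (ι → R) →ₗ[R] R) ⊤ ≤ I := by
          exact Submodule.smul_le.mpr fun r hr x _ => Ideal.mul_mem_right _ _ hr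
        exact h3 h2
      obtain ⟨t, ht⟩ := (h.rel (w - u)).mp (by rw [map_sub, hfu, sub_self])
      refine ⟨fun i => Ideal.Quotient.mk I (t i), ?_⟩
      rw [← hmul, ← ht]
      funext i
      rw [Pi.sub_apply, map_sub, Ideal.Quotient.eq_zero_iff_mem.mpr (hu' i), sub_zero]
    · rintro ⟨t, ht⟩
      choose s hs using fun i => Ideal.Quotient.mk_surjective (t i)
      obtain rfl : t = fun i => Ideal.Quotient.mk I (s i) := funext fun i => (hs i).symm
      rw [← hf', ht, ← hmul, hf']
      have : f (A.mulVec s) = 0 := (h.rel _).mpr ⟨s, rfl⟩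
      rw [this, map_zero]
  · intro i
    have := hf' (Pi.single i 1)
    rw [← this]
    congr 1
    funext j
    by_cases hj : j = i
    · subst hj
      simp
    · simp [Pi.single_eq_of_ne hj]

/-- The quotient by one of at least two generators is not zero. -/
lemma nontrivial_modGen [IsLocalRing R] {A : Matrix ι ι R} {f : (ι → R) →ₗ[R] C}
    (h : PresentsN A f) (hA : ∀ i j, A i j ∈ IsLocalRing.maximalIdeal R) {i j : ι} (hij : j ≠ i) :
    Nontrivial (ModGen f i) := by
  refine ⟨⟨(Submodule.mkQ _) (f (Pi.single j 1)), 0, ?_⟩⟩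
  intro h0
  rw [Submodule.mkQ_apply, Submodule.Quotient.mk_eq_zero] at h0
  obtain ⟨s, hs⟩ := Submodule.mem_span_singleton.mp h0
  rw [← map_smul, ← sub_eq_zero, ← map_sub, h.rel] at hs
  obtain ⟨t, ht⟩ := hs
  have h1 := congrFun ht j
  rw [Pi.sub_apply, Pi.smul_apply, Pi.single_eq_of_ne hij, Pi.single_eq_same, smul_zero,
    zero_sub] at h1
  have h2 : (-1 : R) ∈ IsLocalRing.maximalIdeal R := by
    rw [h1]
    exact Ideal.sum_mem _ fun k _ => Ideal.mul_mem_right _ _ (hA j k)
  have h3 : (1 : R) ∈ IsLocalRing.maximalIdeal R := by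
    have := neg_mem h2
    rwa [neg_neg] at this
  exact (Ideal.ne_top_iff_one _).mp (IsLocalRing.maximalIdeal.isMaximal R).ne_top h3

/-- A module with an annihilator contained in `J` has at least as many endomorphisms as `R / J`. -/
lemma length_quot_le_end {M : Type*} [AddCommGroup M] [Module R M] (J : Ideal R)
    (hJ : ∀ r : R, (∀ x : M, r • x = 0) → r ∈ J) :
    Module.length R (R ⧸ J) ≤ Module.length R (M →ₗ[R] M) := by
  let sc : R →ₗ[R] (M →ₗ[R] M) := LinearMap.lsmul R M
  have h1 : LinearMap.ker sc ≤ J := by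
    intro r hr
    refine hJ r fun x => ?_
    rw [LinearMap.mem_ker] at hr
    exact LinearMap.congr_fun hr x
  calc Module.length R (R ⧸ J) ≤ Module.length R (R ⧸ LinearMap.ker sc) := by
        refine Module.length_le_of_surjective
          ((LinearMap.ker sc).liftQ J.mkQ (by rw [Submodule.ker_mkQ]; exact h1)) ?_
        intro y
        obtain ⟨x, rfl⟩ := Submodule.mkQ_surjective _ y
        exact ⟨(LinearMap.ker sc).mkQ x, rfl⟩
    _ = Module.length R (LinearMap.range sc) := (sc.quotKerEquivRange).length_eq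
    _ ≤ _ := Module.length_le_of_injective (LinearMap.range sc).subtype
        (Submodule.subtype_injective _)

/-- For two generators: the annihilator of the quotient by the first generator. -/
lemma mem_cofactor {A : Matrix (Fin 2) (Fin 2) R} {f : (Fin 2 → R) →ₗ[R] C}
    (h : PresentsN A f) (r : R) (hr : ∀ x : ModGen f 0, r • x = 0) : r ∈ cofactorIdeal A 0 := by
  have h0 := hr ((Submodule.mkQ _) (f (Pi.single 1 1)))
  rw [← map_smul, ← map_smul, Submodule.mkQ_apply, Submodule.Quotient.mk_eq_zero] at h0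
  obtain ⟨s, hs⟩ := Submodule.mem_span_singleton.mp h0
  rw [← map_smul, ← sub_eq_zero, ← map_sub, h.rel] at hs
  obtain ⟨t, ht⟩ := hs
  have h1 := congrFun ht 1
  have h2 : r = A 1 1 * (-t 1) + (-A 1 0) * t 0 := by
    simp [Matrix.mulVec, dotProduct, Fin.sum_univ_two] at h1
    linear_combination -h1
  rw [h2, cofactorIdeal, Matrix.adjugate_fin_two]
  refine Ideal.add_mem _ (Ideal.mul_mem_right _ _ (Ideal.subset_span ⟨0, ?_⟩))
    (Ideal.mul_mem_right _ _ (Ideal.subset_span ⟨1, ?_⟩)) <;> simp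

end gen

section canonical

/-- **Square presentations of canonical modules.** -/
theorem canonicalN {R : Type u} [CommRing R] [IsLocalRing R]
    {ω : Type u} [AddCommGroup ω] [Module R ω] (I : Ideal R) [IsLocalRing (R ⧸ I)]
    [IsArtinianRing (R ⧸ I)]
    (hinj : Module.Injective (R ⧸ I) (ω ⧸ (I • ⊤ : Submodule R ω)))
    (hk : Module.length (R ⧸ I) (IsLocalRing.ResidueField (R ⧸ I) →ₗ[R ⧸ I]
      (ω ⧸ (I • ⊤ : Submodule R ω))) = 1) {n : ℕ} (hn : 1 ≤ n)
    {f : (Fin (n + 1) → R) →ₗ[R] ω} (hf : Function.Surjective f)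
    (hmin : ∀ v, f v = 0 → ∀ i, v i ∈ IsLocalRing.maximalIdeal R)
    (g : (Fin (n + 1) → R) →ₗ[R] (Fin (n + 1) → R))
    (hg : LinearMap.range g = LinearMap.ker f) :
    2 ≤ n ∧ ∀ i : Fin (n + 1),
      Module.length (R ⧸ I)
        (((ω ⧸ (I • ⊤ : Submodule R ω)) ⧸ Submodule.span (R ⧸ I)
          {(I • ⊤ : Submodule R ω).mkQ (f (Pi.single i 1))}) →ₗ[R ⧸ I]
        ((ω ⧸ (I • ⊤ : Submodule R ω)) ⧸ Submodule.span (R ⧸ I)
          {(I • ⊤ : Submodule R ω).mkQ (f (Pi.single i 1))})) <
      Module.length (R ⧸ I)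
        ((R ⧸ I) ⧸ cofactorIdeal ((LinearMap.toMatrix' g).map (Ideal.Quotient.mk I)) i) := by
  have hA := presentsN_of_map hf g hg
  have hm : ∀ i j, LinearMap.toMatrix' g i j ∈ IsLocalRing.maximalIdeal R := by
    intro i j
    have h0 : f (g (Pi.single j 1)) = 0 := by
      rw [← LinearMap.mem_ker, ← hg]
      exact ⟨_, rfl⟩
    have := hmin _ h0 i
    rwa [← LinearMap.toMatrix'_apply] at this
  obtain ⟨f', hA', hgen⟩ := presentsN_quot hA I
  have hbaer : Module.Baer (R ⧸ I) (ω ⧸ (I • ⊤ : Submodule R ω)) := Module.Baer.of_injective hinj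
  have hIm : I ≤ IsLocalRing.maximalIdeal R :=
    IsLocalRing.le_maximalIdeal (Ideal.Quotient.nontrivial_iff.mp inferInstance)
  have hA'm : ∀ i j, (LinearMap.toMatrix' g).map (Ideal.Quotient.mk I) i j ∈
      IsLocalRing.maximalIdeal (R ⧸ I) := by
    intro i j
    rw [Matrix.map_apply, IsLocalRing.mem_maximalIdeal, mem_nonunits_iff]
    intro hu
    obtain ⟨s', hs'⟩ := hu.exists_left_inv
    obtain ⟨s, rfl⟩ := Ideal.Quotient.mk_surjective s'
    have h1 : s * LinearMap.toMatrix' g i j - 1 ∈ I := by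
      rw [← Ideal.Quotient.eq_zero_iff_mem, map_sub, map_mul, hs', map_one, sub_self]
    have h2 : (1 : R) ∈ IsLocalRing.maximalIdeal R := by
      have := Ideal.sub_mem _ (Ideal.mul_mem_left _ s (hm i j)) (hIm h1)
      rwa [sub_sub_cancel] at this
    exact (Ideal.ne_top_iff_one _).mp (IsLocalRing.maximalIdeal.isMaximal R).ne_top h2
  have hfin : Module.Finite (R ⧸ I) (ω ⧸ (I • ⊤ : Submodule R ω)) :=
    Module.Finite.of_surjective f' hA'.surj
  have hfl : IsFiniteLength (R ⧸ I) (ω ⧸ (I • ⊤ : Submodule R ω)) :=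
    isFiniteLength_iff_isNoetherian_isArtinian.mpr ⟨inferInstance, inferInstance⟩
  have hflR : IsFiniteLength (R ⧸ I) (R ⧸ I) :=
    isFiniteLength_iff_isNoetherian_isArtinian.mpr ⟨inferInstance, inferInstance⟩
  have hdet := faithful hbaer hk _ (det_smulN hA')
  have h2 := length_hom hbaer hk _ hfl
  have h3 := length_hom hbaer hk _ hflR
  have h4 : Module.length (R ⧸ I) ((R ⧸ I) →ₗ[R ⧸ I] (ω ⧸ (I • ⊤ : Submodule R ω))) =
      Module.length (R ⧸ I) (ω ⧸ (I • ⊤ : Submodule R ω)) :=
    (LinearMap.ringLmapEquivSelf (R ⧸ I) (R ⧸ I) _).length_eq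
  have key : ∀ i : Fin (n + 1),
      Module.length (R ⧸ I) (ModGen f' i →ₗ[R ⧸ I] ModGen f' i) <
      Module.length (R ⧸ I)
        ((R ⧸ I) ⧸ cofactorIdeal ((LinearMap.toMatrix' g).map (Ideal.Quotient.mk I)) i) := by
    intro i
    obtain ⟨j, hj⟩ : ∃ j : Fin (n + 1), j ≠ i := by
      have : Nontrivial (Fin (n + 1)) := Fin.nontrivial_iff_two_le.mpr (by omega)
      exact exists_ne i
    have := nontrivial_modGen hA' hA'm hj
    have h1 := length_generalN hA' hA'm hdet i
    rw [h2, ← h4, h3, length_eq_sub_add_quot (cofactorIdeal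
      ((LinearMap.toMatrix' g).map (Ideal.Quotient.mk I)) i), add_assoc] at h1
    have h5 : Module.length (R ⧸ I) (cofactorIdeal
      ((LinearMap.toMatrix' g).map (Ideal.Quotient.mk I)) i) ≠ ⊤ := Module.length_ne_top
    have h6 := (ENat.add_le_add_iff_left h5).mp h1
    have h7 : Module.length (R ⧸ I) (ModGen f' i →ₗ[R ⧸ I] ModGen f' i) ≠ ⊤ := by
      intro h8
      rw [h8, top_add, top_le_iff] at h6
      exact Module.length_ne_top h6
    exact (ENat.add_one_le_iff h7).mp h6
  refine ⟨?_, fun i => ?_⟩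
  · by_contra hn2
    obtain rfl : n = 1 := by omega
    have h1 := length_quot_le_end (M := ModGen f' 0)
      (cofactorIdeal ((LinearMap.toMatrix' g).map (Ideal.Quotient.mk I)) 0)
      (mem_cofactor hA')
    exact absurd (key 0) (not_lt.mpr h1)
  · have := key i
    unfold ModGen at this
    rw [hgen i] at this
    exact this

end canonical

end Pool.Agent.H938.BT
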