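import Pool.Agent.H938.BT.Inj

/-!
# Reduction modulo a system of parameters
-/

namespace Pool.Agent.H938.BT

open Module

universe u v

section gen

variable {R : Type u} [CommRing R] {C : Type v} [AddCommGroup C] [Module R C]

/-- At most two relations: a presentation by a `2 × 2` matrix. -/
lemma exists_matrix {f : (Fin 2 → R) →ₗ[R] C} (hf : Function.Surjective f) {n : ℕ} (hn : n ≤ 2)
    (g : (Fin n → R) →ₗ[R] (Fin 2 → R)) (hg : LinearMap.range g = LinearMap.ker f) :
    ∃ A : Matrix (Fin 2) (Fin 2) R, Presents A f := by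
  let res : (Fin 2 → R) →ₗ[R] (Fin n → R) := LinearMap.funLeft R R (Fin.castLE hn)
  have hres : Function.Surjective res :=
    LinearMap.funLeft_surjective_of_injective R R _ (Fin.castLE_injective hn)
  let g' : (Fin 2 → R) →ₗ[R] (Fin 2 → R) := g.comp res
  have hg' : LinearMap.range g' = LinearMap.ker f := by
    rw [← hg]
    exact LinearMap.range_comp_of_range_eq_top g (LinearMap.range_eq_top.mpr hres)
  refine ⟨Matrix.of fun k j => g' (Pi.single j 1) k, hf, fun v => ?_⟩
  rw [← LinearMap.mem_ker, ← hg']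
  constructor
  · rintro ⟨t, rfl⟩
    refine ⟨t, fun k => ?_⟩
    rw [apply_eq g' t]
    simp only [Pi.add_apply, Pi.smul_apply, smul_eq_mul, Matrix.of_apply]
    ring
  · rintro ⟨t, ht⟩
    refine ⟨t, ?_⟩
    funext k
    rw [ht k, apply_eq g' t]
    simp only [Pi.add_apply, Pi.smul_apply, smul_eq_mul, Matrix.of_apply]
    ring

lemma col_mem_ker {A : Matrix (Fin 2) (Fin 2) R} {f : (Fin 2 → R) →ₗ[R] C} (h : Presents A f)
    (j : Fin 2) : f (fun k => A k j) = 0 := by
  rw [h.rel]
  refine ⟨Pi.single j 1, fun k => ?_⟩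
  fin_cases j <;> simp

/-- If the module is not cyclic then the relations have coefficients in the maximal ideal. -/
lemma mem_max [IsLocalRing R] {f : (Fin 2 → R) →ₗ[R] C} (hf : Function.Surjective f)
    (hc : ∀ x : C, Submodule.span R {x} ≠ ⊤) {v : Fin 2 → R} (hv : f v = 0) (i : Fin 2) :
    v i ∈ IsLocalRing.maximalIdeal R := by
  by_contra hi
  rw [IsLocalRing.mem_maximalIdeal, mem_nonunits_iff, not_not] at hi
  obtain ⟨s, hs⟩ := hi.exists_left_inv
  rw [apply_eq f v] at hv
  fin_cases i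
  · apply hc (f (Pi.single 1 1))
    rw [eq_top_iff]
    intro x _
    obtain ⟨y, rfl⟩ := hf x
    have h0 : f (Pi.single 0 1) = (-(s * v 1)) • f (Pi.single 1 1) := by
      have : s • (v 0 • f (Pi.single 0 1) + v 1 • f (Pi.single 1 1)) = 0 := by rw [hv, smul_zero]
      have hs' : s * v 0 = 1 := hs
      rw [smul_add, smul_smul, smul_smul, hs', one_smul] at this
      rw [neg_smul]
      exact eq_neg_of_add_eq_zero_left this
    rw [apply_eq f y, h0, smul_smul, ← add_smul]
    exact Submodule.smul_mem _ _ (Submodule.mem_span_singleton_self _)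
  · apply hc (f (Pi.single 0 1))
    rw [eq_top_iff]
    intro x _
    obtain ⟨y, rfl⟩ := hf x
    have h0 : f (Pi.single 1 1) = (-(s * v 0)) • f (Pi.single 0 1) := by
      have : s • (v 0 • f (Pi.single 0 1) + v 1 • f (Pi.single 1 1)) = 0 := by rw [hv, smul_zero]
      have hs' : s * v 1 = 1 := hs
      rw [smul_add, smul_smul, smul_smul, hs', one_smul] at this
      rw [neg_smul]
      exact eq_neg_of_add_eq_zero_right this
    rw [apply_eq f y, h0, smul_smul, ← add_smul]
    exact Submodule.smul_mem _ _ (Submodule.mem_span_singleton_self _)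

/-- The determinant annihilates the cokernel. -/
lemma det_smul {A : Matrix (Fin 2) (Fin 2) R} {f : (Fin 2 → R) →ₗ[R] C} (h : Presents A f)
    (x : C) : (A 0 0 * A 1 1 - A 0 1 * A 1 0) • x = 0 := by
  obtain ⟨v, rfl⟩ := h.surj x
  rw [← map_smul, h.rel]
  refine ⟨![A 1 1 * v 0 - A 0 1 * v 1, A 0 0 * v 1 - A 1 0 * v 0], fun k => ?_⟩
  simp only [Pi.smul_apply, smul_eq_mul, Matrix.cons_val_zero, Matrix.cons_val_one]
  fin_cases k
  · simp only [Fin.zero_eta]; ring
  · simp only [Fin.mk_one]; ring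

/-- **Faithful modules with few endomorphisms over Artinian local rings.** -/
theorem three_le_of_faithful [IsLocalRing R] [IsArtinianRing R]
    (hfaith : ∀ r : R, (∀ x : C, r • x = 0) → r = 0)
    (hend : Module.length R (C →ₗ[R] C) ≤ Module.length R R)
    {f : (Fin 2 → R) →ₗ[R] C} (hf : Function.Surjective f)
    (hc : ∀ x : C, Submodule.span R {x} ≠ ⊤) {n : ℕ}
    (g : (Fin n → R) →ₗ[R] (Fin 2 → R)) (hg : LinearMap.range g = LinearMap.ker f) : 3 ≤ n := by
  by_contra hn
  obtain ⟨A, hA⟩ := exists_matrix hf (by omega) g hg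
  have h1 := length_lt (fun i j => mem_max hf hc (col_mem_ker hA j) i)
    (hfaith _ (det_smul hA)) hA
  have h2 := h1.trans hend
  have h3 : Module.length R R ≠ ⊤ := Module.length_ne_top
  exact absurd h2 (not_le.mpr (ENat.lt_add_one_iff h3 |>.mpr le_rfl))

end gen

section red

variable {R : Type u} [CommRing R] {C : Type v} [AddCommGroup C] [Module R C]

/-- Reduction of a presentation modulo an ideal. -/
lemma presents_quot {A : Matrix (Fin 2) (Fin 2) R} {f : (Fin 2 → R) →ₗ[R] C} (h : Presents A f)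
    (I : Ideal R) :
    ∃ f' : (Fin 2 → R ⧸ I) →ₗ[R ⧸ I] (C ⧸ (I • ⊤ : Submodule R C)),
      Presents (fun i j => Ideal.Quotient.mk I (A i j)) f' := by
  let π : C →ₗ[R] (C ⧸ (I • ⊤ : Submodule R C)) := (I • ⊤ : Submodule R C).mkQ
  let f' : (Fin 2 → R ⧸ I) →ₗ[R ⧸ I] (C ⧸ (I • ⊤ : Submodule R C)) :=
    Fintype.linearCombination (R ⧸ I) (fun i => π (f (Pi.single i 1)))
  have hf' : ∀ v : Fin 2 → R, f' (fun i => Ideal.Quotient.mk I (v i)) = π (f v) := by
    intro v
    rw [apply_eq f v, map_add, map_smul, map_smul]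
    simp only [f', Fintype.linearCombination_apply, Fin.sum_univ_two]
    rfl
  refine ⟨f', ?_, ?_⟩
  · intro y
    obtain ⟨x, rfl⟩ := Submodule.mkQ_surjective _ y
    obtain ⟨v, rfl⟩ := h.surj x
    exact ⟨_, hf' v⟩
  · intro v
    choose w hw using fun i => Ideal.Quotient.mk_surjective (v i)
    obtain rfl : v = fun i => Ideal.Quotient.mk I (w i) := funext fun i => (hw i).symm
    rw [hf']
    constructor
    · intro h0
      change (I • ⊤ : Submodule R C).mkQ (f w) = 0 at h0
      rw [Submodule.mkQ_apply, Submodule.Quotient.mk_eq_zero] at h0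
      have h1 : (I • ⊤ : Submodule R C) = (I • ⊤ : Submodule R (Fin 2 → R)).map f := by
        rw [Submodule.map_smul'', Submodule.map_top, LinearMap.range_eq_top.mpr h.surj]
      rw [h1] at h0
      obtain ⟨u, hu, hfu⟩ := h0
      have hu' : ∀ i, u i ∈ I := by
        intro i
        have h2 : u i ∈ (I • ⊤ : Submodule R (Fin 2 → R)).map (LinearMap.proj i) := ⟨u, hu, rfl⟩
        rw [Submodule.map_smul''] at h2
        have h3 : I • Submodule.map (LinearMap.proj i : (Fin 2 → R) →ₗ[R] R) ⊤ ≤ I := by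
          exact Submodule.smul_le.mpr fun r hr x _ => Ideal.mul_mem_right _ _ hr
        exact h3 h2
      obtain ⟨t, ht⟩ := (h.rel (w - u)).mp (by rw [map_sub, hfu, sub_self])
      refine ⟨fun i => Ideal.Quotient.mk I (t i), fun k => ?_⟩
      have h4 : Ideal.Quotient.mk I (w k) = Ideal.Quotient.mk I ((w - u) k) := by
        rw [Pi.sub_apply, map_sub, Ideal.Quotient.eq_zero_iff_mem.mpr (hu' k), sub_zero]
      change Ideal.Quotient.mk I (w k) = _
      rw [h4, ht k]
      simp
    · rintro ⟨t, ht⟩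
      choose s hs using fun i => Ideal.Quotient.mk_surjective (t i)
      have h5 : ∀ k, Ideal.Quotient.mk I (w k) =
          Ideal.Quotient.mk I (A k 0 * s 0 + A k 1 * s 1) := by
        intro k
        rw [map_add, map_mul, map_mul, hs, hs]
        exact ht k
      rw [← hf', funext h5, hf']
      have : f (fun k => A k 0 * s 0 + A k 1 * s 1) = 0 := (h.rel _).mpr ⟨s, fun _ => rfl⟩
      rw [this, map_zero]

/-- **Canonical modules with two generators have at least three relations.** -/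
theorem three_le_of_canonical {R : Type u} [CommRing R] [IsLocalRing R]
    {ω : Type u} [AddCommGroup ω] [Module R ω] (I : Ideal R) [IsLocalRing (R ⧸ I)]
    [IsArtinianRing (R ⧸ I)]
    (hinj : Module.Injective (R ⧸ I) (ω ⧸ (I • ⊤ : Submodule R ω)))
    (hk : Module.length (R ⧸ I) (IsLocalRing.ResidueField (R ⧸ I) →ₗ[R ⧸ I]
      (ω ⧸ (I • ⊤ : Submodule R ω))) = 1)
    {f : (Fin 2 → R) →ₗ[R] ω} (hf : Function.Surjective f)
    (hc : ∀ x : ω, Submodule.span R {x} ≠ ⊤) {n : ℕ}
    (g : (Fin n → R) →ₗ[R] (Fin 2 → R)) (hg : LinearMap.range g = LinearMap.ker f) : 3 ≤ n := by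
  by_contra hn
  obtain ⟨A, hA⟩ := exists_matrix hf (by omega) g hg
  have hm := fun i j => mem_max hf hc (col_mem_ker hA j) i
  obtain ⟨f', hA'⟩ := presents_quot hA I
  have hbaer : Module.Baer (R ⧸ I) (ω ⧸ (I • ⊤ : Submodule R ω)) := Module.Baer.of_injective hinj
  have hIm : I ≤ IsLocalRing.maximalIdeal R :=
    IsLocalRing.le_maximalIdeal (Ideal.Quotient.nontrivial_iff.mp inferInstance)
  have hA'm : ∀ i j, Ideal.Quotient.mk I (A i j) ∈ IsLocalRing.maximalIdeal (R ⧸ I) := by
    intro i j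
    rw [IsLocalRing.mem_maximalIdeal, mem_nonunits_iff]
    intro hu
    obtain ⟨s', hs'⟩ := hu.exists_left_inv
    obtain ⟨s, rfl⟩ := Ideal.Quotient.mk_surjective s'
    have h1 : s * A i j - 1 ∈ I := by
      rw [← Ideal.Quotient.eq_zero_iff_mem, map_sub, map_mul, hs', map_one, sub_self]
    have h2 : (1 : R) ∈ IsLocalRing.maximalIdeal R := by
      have := Ideal.sub_mem _ (Ideal.mul_mem_left _ s (hm i j)) (hIm h1)
      rwa [sub_sub_cancel] at this
    exact (Ideal.ne_top_iff_one _).mp (IsLocalRing.maximalIdeal.isMaximal R).ne_top h2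
  have hfin : Module.Finite (R ⧸ I) (ω ⧸ (I • ⊤ : Submodule R ω)) :=
    Module.Finite.of_surjective f' hA'.surj
  have hfl : IsFiniteLength (R ⧸ I) (ω ⧸ (I • ⊤ : Submodule R ω)) :=
    isFiniteLength_iff_isNoetherian_isArtinian.mpr ⟨inferInstance, inferInstance⟩
  have hflR : IsFiniteLength (R ⧸ I) (R ⧸ I) :=
    isFiniteLength_iff_isNoetherian_isArtinian.mpr ⟨inferInstance, inferInstance⟩
  have h1 := length_lt (A := fun i j => Ideal.Quotient.mk I (A i j)) hA'm
    (faithful hbaer hk _ (det_smul hA')) hA'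
  have h2 := length_hom hbaer hk _ hfl
  have h3 := length_hom hbaer hk _ hflR
  have h4 : Module.length (R ⧸ I) ((R ⧸ I) →ₗ[R ⧸ I] (ω ⧸ (I • ⊤ : Submodule R ω))) =
      Module.length (R ⧸ I) (ω ⧸ (I • ⊤ : Submodule R ω)) :=
    (LinearMap.ringLmapEquivSelf (R ⧸ I) (R ⧸ I) _).length_eq
  rw [h2, ← h4, h3] at h1
  have h5 : Module.length (R ⧸ I) (R ⧸ I) ≠ ⊤ := Module.length_ne_top
  exact absurd h1 (not_le.mpr (ENat.lt_add_one_iff h5 |>.mpr le_rfl))

end red

end Pool.Agent.H938.BT
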